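import Pool.Agent.H945Z.Had.Force
import Pool.Agent.H945Z.Had.Chain

open Pool.Agent.Helper292.ForceCH Pool.Agent.Helper290.Calk Pool.Agent.H945Z.Had

/-- Hadwin's conjecture fails: a forcing notion forces that `ω₁` is preserved, that the continuum
hypothesis fails and that `P(ℕ)` has the weak Freese-Nation property; and this property implies
that any two maximal chains of projections of the Calkin algebra are order-isomorphic. -/
theorem Pool.Agent.Results.MP_240d5c_lc.ACohenModel.result :
    (∃ (P : Type) (_ : Preorder P) (J : Type), Nonempty P ∧ ∀ p : P,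
      p ∈ OmegaOnePreserved P ∧ p ∈ fnot (CHHolds P) ∧ p ∈ WFNHolds P J) ∧
    ∀ J : Type, WFN J →
      ∀ (H : Type) [NormedAddCommGroup H] [InnerProductSpace ℂ H] [CompleteSpace H]
        [TopologicalSpace.SeparableSpace H], ¬ FiniteDimensional ℂ H →
      ∀ C D : Set (Calkin H), IsMaxChainProj C → IsMaxChainProj D →
        ∃ f : C ≃ D, ∀ a b : C, a.1 * b.1 = a.1 ↔ (f a).1 * (f b).1 = (f a).1 :=
  ⟨exists_forcing_wfn, fun _ hJ _ _ _ _ _ hH _ _ hC hD => chains_iso hH hJ hC hD⟩
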